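import Mathlib.Algebra.Field.ULift
import Mathlib.RingTheory.PowerSeries.Inverse
import Mathlib.RingTheory.PowerSeries.NoZeroDivisors
import Mathlib.Tactic

set_option autoImplicit false

/-! No set of conditional equations singles out the integral domains with common division inside
the commutative rings with common division. -/

namespace Pool.Agent.Results.MP_faa006_lc.NotDefinable

universe u

/-- Terms over the signature `(0, 1, ⊥, -, +, ·, ÷)` with variables indexed by `ℕ`. -/
inductive Tm : Type
  | var : ℕ → Tm
  | zero : Tm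
  | one : Tm
  | bot : Tm
  | neg : Tm → Tm
  | add : Tm → Tm → Tm
  | mul : Tm → Tm → Tm
  | div : Tm → Tm → Tm

/-- Structures for the signature `(0, 1, ⊥, -, +, ·, ÷)`. -/
structure Alg (A : Type u) where
  zero : A
  one : A
  bot : A
  neg : A → A
  add : A → A → A
  mul : A → A → A
  div : A → A → A

/-- The value of a term under an assignment of the variables. -/
def Alg.eval {A : Type u} (M : Alg A) (v : ℕ → A) : Tm → A
  | .var n => v n
  | .zero => M.zero
  | .one => M.one
  | .bot => M.bot
  | .neg t => M.neg (M.eval v t)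
  | .add s t => M.add (M.eval v s) (M.eval v t)
  | .mul s t => M.mul (M.eval v s) (M.eval v t)
  | .div s t => M.div (M.eval v s) (M.eval v t)

/-- A conditional equation `e₁ ∧ … ∧ eₙ → e`. -/
structure CondEq where
  hyps : List (Tm × Tm)
  concl : Tm × Tm

/-- Truth of a conditional equation in a structure (variables universally quantified). -/
def Alg.Sat {A : Type u} (M : Alg A) (c : CondEq) : Prop :=
  ∀ v : ℕ → A, (∀ e ∈ c.hyps, M.eval v e.1 = M.eval v e.2) →
    M.eval v c.concl.1 = M.eval v c.concl.2

open Classical in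
/-- The commutative ring `R` with inverse based common division: `R` with an extra absorptive
element `none = ⊥`, and `x ÷ y = x · y⁻¹` if `y` is a unit, `x ÷ y = ⊥` otherwise. -/
noncomputable def enl (R : Type u) [CommRing R] : Alg (Option R) where
  zero := some 0
  one := some 1
  bot := none
  neg x := x.map (fun a => -a)
  add x y := x.bind fun a => y.map fun b => a + b
  mul x y := x.bind fun a => y.map fun b => a * b
  div x y := x.bind fun a => y.bind fun b =>
    if IsUnit b then some (a * Ring.inverse b) else none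

theorem eval_map {R D : Type u} [CommRing R] [CommRing D] (h : R →+* D)
    (hu : ∀ r, IsUnit (h r) → IsUnit r) (v : ℕ → Option R) (t : Tm) :
    (enl D).eval (fun i => (v i).map h) t = ((enl R).eval v t).map h := by
  classical
  induction t with
  | var n => rfl
  | zero => simp [Alg.eval, enl]
  | one => simp [Alg.eval, enl]
  | bot => simp [Alg.eval, enl]
  | neg t ih =>
    simp only [Alg.eval, enl] at ih ⊢
    rw [ih]
    rcases Alg.eval _ v t with _ | a <;> simp
  | add s t ih1 ih2 =>
    simp only [Alg.eval, enl] at ih1 ih2 ⊢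
    rw [ih1, ih2]
    rcases Alg.eval _ v s with _ | a <;> rcases Alg.eval _ v t with _ | b <;> simp
  | mul s t ih1 ih2 =>
    simp only [Alg.eval, enl] at ih1 ih2 ⊢
    rw [ih1, ih2]
    rcases Alg.eval _ v s with _ | a <;> rcases Alg.eval _ v t with _ | b <;> simp
  | div s t ih1 ih2 =>
    simp only [Alg.eval, enl] at ih1 ih2 ⊢
    rw [ih1, ih2]
    rcases Alg.eval _ v s with _ | a <;> rcases Alg.eval _ v t with _ | b
    · simp
    · simp
    · simp
    · by_cases hb : IsUnit b
      · have hb' : IsUnit (h b) := hb.map h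
        simp only [Option.map_some, Option.bind_some, if_pos hb, if_pos hb', map_mul,
          Option.some.injEq]
        congr 1
        obtain ⟨w, rfl⟩ := hb
        rw [Ring.inverse_unit]
        have : h (w : R) = ((Units.map (h : R →* D) w : Dˣ) : D) := rfl
        rw [this, Ring.inverse_unit]
        rfl
      · have hb' : ¬ IsUnit (h b) := fun h' => hb (hu b h')
        simp [if_neg hb, if_neg hb']

section example_ring

/-- The domain used: formal power series over the rationals. -/
abbrev V : Type u := PowerSeries (ULift.{u} ℚ)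

/-- Pairs of power series with the same constant term. -/
noncomputable def S : Subring (V.{u} × V.{u}) :=
  RingHom.eqLocus
    ((PowerSeries.constantCoeff (R := ULift.{u} ℚ)).comp (RingHom.fst V.{u} V.{u}))
    ((PowerSeries.constantCoeff (R := ULift.{u} ℚ)).comp (RingHom.snd V.{u} V.{u}))

theorem mem_S (p : V.{u} × V.{u}) :
    p ∈ S ↔ PowerSeries.constantCoeff p.1 = PowerSeries.constantCoeff p.2 := Iff.rfl

noncomputable def h1 : S.{u} →+* V.{u} := (RingHom.fst V V).comp S.subtype
noncomputable def h2 : S.{u} →+* V.{u} := (RingHom.snd V V).comp S.subtype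

theorem unit_of (r : S.{u}) (h : IsUnit r.1.1 ∧ IsUnit r.1.2) : IsUnit r := by
  obtain ⟨⟨a, ha⟩, ⟨b, hb⟩⟩ := h
  have hmem : ((↑a⁻¹ : V.{u}), (↑b⁻¹ : V.{u})) ∈ S := by
    rw [mem_S]
    have h1 : PowerSeries.constantCoeff (a : V.{u}) = PowerSeries.constantCoeff (b : V.{u}) := by
      rw [ha, hb]; exact (mem_S _).1 r.2
    have e1 : PowerSeries.constantCoeff (a : V.{u}) * PowerSeries.constantCoeff (↑a⁻¹ : V.{u})
        = 1 := by
      rw [← map_mul, Units.mul_inv, map_one]
    have e2 : PowerSeries.constantCoeff (b : V.{u}) * PowerSeries.constantCoeff (↑b⁻¹ : V.{u})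
        = 1 := by
      rw [← map_mul, Units.mul_inv, map_one]
    have ne : PowerSeries.constantCoeff (a : V.{u}) ≠ 0 := left_ne_zero_of_mul_eq_one e1
    apply mul_left_cancel₀ ne
    rw [e1, h1, e2]
  refine IsUnit.of_mul_eq_one ⟨_, hmem⟩ ?_
  apply Subtype.ext
  have : r.1 = ((a : V.{u}), (b : V.{u})) := Prod.ext ha.symm hb.symm
  show r.1 * ((↑a⁻¹ : V.{u}), (↑b⁻¹ : V.{u})) = 1
  rw [this]
  ext1 <;> simp

theorem isUnit_iff (f : V.{u}) : IsUnit f ↔ PowerSeries.constantCoeff f ≠ 0 := by
  rw [PowerSeries.isUnit_iff_constantCoeff, isUnit_iff_ne_zero]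

theorem h1_unit (r : S.{u}) (h : IsUnit (h1 r)) : IsUnit r := by
  have h' : IsUnit r.1.1 := h
  refine unit_of r ⟨h', ?_⟩
  rw [isUnit_iff] at h' ⊢
  rwa [← (mem_S _).1 r.2]

theorem h2_unit (r : S.{u}) (h : IsUnit (h2 r)) : IsUnit r := by
  have h' : IsUnit r.1.2 := h
  refine unit_of r ⟨?_, h'⟩
  rw [isUnit_iff] at h' ⊢
  rwa [(mem_S _).1 r.2]

theorem not_domain : ¬ IsDomain S.{u} := by
  intro h
  have hx : ((PowerSeries.X : V.{u}), (0 : V.{u})) ∈ S := by
    rw [mem_S]; simp
  have hy : ((0 : V.{u}), (PowerSeries.X : V.{u})) ∈ S := by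
    rw [mem_S]; simp
  have hm : (⟨_, hx⟩ : S.{u}) * ⟨_, hy⟩ = 0 := by
    apply Subtype.ext
    show ((PowerSeries.X : V.{u}), (0 : V.{u})) * ((0 : V.{u}), (PowerSeries.X : V.{u})) = 0
    ext1 <;> simp
  rcases mul_eq_zero.1 hm with h' | h'
  · have := congrArg (fun z : S.{u} => z.1.1) h'
    exact PowerSeries.X_ne_zero this
  · have := congrArg (fun z : S.{u} => z.1.2) h'
    exact PowerSeries.X_ne_zero this

theorem sat (c : CondEq)
    (hc : ∀ (D : Type u) [CommRing D] [IsDomain D], (enl D).Sat c) : (enl S.{u}).Sat c := by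
  intro v hv
  have H : ∀ (h : S.{u} →+* V.{u}), (∀ r, IsUnit (h r) → IsUnit r) →
      ((enl S.{u}).eval v c.concl.1).map h = ((enl S.{u}).eval v c.concl.2).map h := by
    intro h hu
    rw [← eval_map h hu, ← eval_map h hu]
    refine hc V _ fun e he => ?_
    rw [eval_map h hu, eval_map h hu, hv e he]
  have e1 := H h1 h1_unit
  have e2 := H h2 h2_unit
  rcases ha : (enl S.{u}).eval v c.concl.1 with _ | a <;>
    rcases hb : (enl S.{u}).eval v c.concl.2 with _ | b
  · rfl
  · rw [ha, hb] at e1; simp at e1
  · rw [ha, hb] at e1; simp at e1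
  · rw [ha, hb] at e1 e2
    simp only [Option.map_some, Option.some.injEq] at e1 e2 ⊢
    exact Subtype.ext (Prod.ext e1 e2)

end example_ring

/-- There is a nontrivial commutative ring `R` which is not an integral domain, but such that
every conditional equation which is true in all integral domains with common division is true in
the ring `R` with common division.  Consequently no set `T` of conditional equations, each true in
all integral domains with common division, has exactly the integral domains with common division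
as its models among the (nontrivial) commutative rings with common division. -/
theorem result :
    (∃ (R : Type u) (_ : CommRing R), Nontrivial R ∧ ¬ IsDomain R ∧
      ∀ c : CondEq, (∀ (D : Type u) [CommRing D] [IsDomain D], (enl D).Sat c) →
        (enl R).Sat c) ∧
    (¬ ∃ T : Set CondEq,
      (∀ c ∈ T, ∀ (D : Type u) [CommRing D] [IsDomain D], (enl D).Sat c) ∧
      ∀ (R : Type u) [CommRing R], IsDomain R ↔ ∀ c ∈ T, (enl R).Sat c) ∧
    ¬ ∃ T : Set CondEq,
      (∀ c ∈ T, ∀ (D : Type u) [CommRing D] [IsDomain D], (enl D).Sat c) ∧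
      ∀ (R : Type u) [CommRing R] [Nontrivial R], IsDomain R ↔ ∀ c ∈ T, (enl R).Sat c := by
  refine ⟨⟨S, inferInstance, inferInstance, not_domain, fun c hc => sat c hc⟩, ?_, ?_⟩
  · rintro ⟨T, hT, h⟩
    exact not_domain ((h S).2 fun c hc => sat c (hT c hc))
  · rintro ⟨T, hT, h⟩
    exact not_domain ((h S).2 fun c hc => sat c (hT c hc))

end Pool.Agent.Results.MP_faa006_lc.NotDefinable
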